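import Mathlib
import Pool.Agent.Helper53.CritDefs
import Pool.Agent.Helper53.CritFive

/-!
# `5`-critical graphs with linear minimum degree
-/

namespace Pool.Agent.Results.MP_1f8788_co.FiveCritical

open Pool.Agent.Helper53.Crit

open Classical in
/-- **Full (positive) answer to Q2.**  There is a constant `c > 0` such that for infinitely many
`n` there is a `5`-critical graph `G` on `n` vertices with `δ(G) ≥ c n`. -/
theorem result : ∃ c : ℝ, 0 < c ∧
    {n : ℕ | ∃ G : SimpleGraph (Fin n), IsCritical 5 G ∧ c * (n : ℝ) ≤ (G.minDegree : ℝ)}.Infinite := by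
  refine ⟨1 / 48, by norm_num, ?_⟩
  rw [Set.infinite_iff_exists_gt]
  intro M
  obtain ⟨H, hH, hdeg⟩ := exists_five_critical (M + 1) (by omega)
  refine ⟨16 * (2 * (M + 1) + 1), ⟨H, hH, ?_⟩, by omega⟩
  have h1 : ((M + 1 : ℕ) : ℝ) ≤ (H.minDegree : ℝ) := by exact_mod_cast hdeg
  refine le_trans ?_ h1
  have hM : (0 : ℝ) ≤ (M : ℝ) := Nat.cast_nonneg M
  push_cast
  linarith

end Pool.Agent.Results.MP_1f8788_co.FiveCritical
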