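import Mathlib
import Pool.Agent.Helper53.CritDefs
import Pool.Agent.Helper18.Crit.Bound

/-!
# `4`-critical graphs have sublinear minimum degree

Let `G` be a graph on `n` vertices which is not `3`-colourable and has minimum degree `d`. We find
a subgraph with at most `n * C ^ (n / d)` edges which is not `3`-colourable. Lists of colours are
propagated; a vertex `t` whose list is still full then has only neighbours with at least two
colours left, so that at most one colour of `t` occurs in fewer than `d / 2` lists of its
neighbours. Give all such vertices `t` their cheap colour. The resulting instance has lists of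
size at most two and is infeasible, hence it has a core with few edges that uses at most two of
these choices. So one of two vertices must receive one of its expensive colours, which removes a
colour from `d / 2` lists. This leads to a tree of depth at most `6 n / d + 1` and branching `4`.
-/

namespace Pool.Agent.Results.MP_1f8788_co.FourCritical

open Pool.Agent.Helper53.Crit

open Classical in
/-- **Full (negative) answer to Q1.** Every `4`-critical graph `G` on `n` vertices satisfies
`δ(G) log n ≤ 25 n`; in particular, for every `c > 0` only finitely many `4`-critical graphs `G`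
satisfy `δ(G) ≥ c |V(G)|`. -/
theorem result :
    (∀ (n : ℕ) (G : SimpleGraph (Fin n)), IsCritical 4 G →
      (G.minDegree : ℝ) * Real.log n ≤ 25 * n) ∧
    ∀ c : ℝ, 0 < c →
      {n : ℕ | ∃ G : SimpleGraph (Fin n), IsCritical 4 G ∧ c * (n : ℝ) ≤ (G.minDegree : ℝ)}.Finite := by
  have main : ∀ (n : ℕ) (G : SimpleGraph (Fin n)), IsCritical 4 G →
      (G.minDegree : ℝ) * Real.log n ≤ 25 * n := by
    intro n G hG
    rcases Nat.eq_zero_or_pos n with rfl | hn
    · simp
    · rcases Nat.eq_zero_or_pos G.minDegree with h0 | h0
      · rw [h0]; simp
      · have h1 := Pool.Agent.Helper18.Crit.degree_bound hG G.minDegree h0 (by rw [Fintype.card_fin]; exact hn)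
          (fun v => G.minDegree_le_degree v)
        rw [Fintype.card_fin] at h1
        refine Pool.Agent.Helper18.Crit.log_bound n G.minDegree h0 ?_ h1
        have h2 := G.minDegree_le_degree ⟨0, hn⟩
        have h3 := G.degree_lt_card_verts ⟨0, hn⟩
        rw [Fintype.card_fin] at h3
        omega
  refine ⟨main, ?_⟩
  intro c hc
  refine (Set.finite_Iic (⌈Real.exp (25 / c)⌉₊)).subset ?_
  rintro n ⟨G, hG, hcG⟩
  rw [Set.mem_Iic]
  rcases Nat.eq_zero_or_pos n with rfl | hn
  · exact Nat.zero_le _
  · have hn' : (0 : ℝ) < n := by exact_mod_cast hn
    have h1 := main n G hG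
    have hlog : 0 ≤ Real.log n := Real.log_natCast_nonneg n
    have h2 : c * n * Real.log n ≤ 25 * n := le_trans (mul_le_mul_of_nonneg_right hcG hlog) h1
    have h3 : Real.log n ≤ 25 / c := by
      rw [le_div_iff₀ hc]
      have h4 : (n : ℝ) * (Real.log n * c) ≤ n * 25 := by nlinarith
      exact le_of_mul_le_mul_left h4 hn'
    have h4 : (n : ℝ) ≤ Real.exp (25 / c) := (Real.log_le_iff_le_exp hn').1 h3
    have h5 : (n : ℝ) ≤ (⌈Real.exp (25 / c)⌉₊ : ℝ) := le_trans h4 (Nat.le_ceil _)
    exact_mod_cast h5

end Pool.Agent.Results.MP_1f8788_co.FourCritical
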